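import Mathlib

/-!
# Retractional skeletons on compact Hausdorff spaces

The definitions follow the problem file verbatim.
-/

set_option autoImplicit false

open Set Filter Topology

namespace Pool.Agent.helper68

universe u v w

/-- A subset `S` of a poset `Γ` is σ-closed: the supremum in `Γ` of each increasing sequence from `S`
belongs to `S`. -/
def SigmaClosed {Γ : Type v} [PartialOrder Γ] (S : Set Γ) : Prop :=
  ∀ (s : ℕ → Γ) (t : Γ), Monotone s → (∀ n, s n ∈ S) → IsLUB (Set.range s) t → t ∈ S

/-- A retractional skeleton on the space `K`, indexed by the poset `Γ`: a family of continuous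
retractions `r s : K → K` (`s ∈ Γ`), where `Γ` is (nonempty and) up-directed and σ-complete, such that
(1) `r s [K]` is metrizable; (2) `s ≤ t` implies `r s = r s ∘ r t = r t ∘ r s`;
(3) if `s 0 < s 1 < …` and `t = sup (s n)` then `r t x = lim r (s n) x` for all `x`;
(4) `x = lim_{s ∈ Γ} r s x` for every `x`. -/
structure RetractionalSkeleton (K : Type u) [TopologicalSpace K] (Γ : Type v) [PartialOrder Γ] where
  /-- the retractions -/
  r : Γ → K → K
  nonempty : Nonempty Γ
  directed : ∀ s t : Γ, ∃ q : Γ, s ≤ q ∧ t ≤ q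
  sigmaComplete : ∀ s : ℕ → Γ, Monotone s → ∃ t : Γ, IsLUB (Set.range s) t
  continuous_r : ∀ s, Continuous (r s)
  idem : ∀ s, r s ∘ r s = r s
  metrizable : ∀ s, TopologicalSpace.MetrizableSpace (Set.range (r s))
  comp_right : ∀ s t, s ≤ t → r s = r s ∘ r t
  comp_left : ∀ s t, s ≤ t → r s = r t ∘ r s
  tendsto_sup : ∀ (s : ℕ → Γ) (t : Γ), StrictMono s → IsLUB (Set.range s) t →
    ∀ x, Tendsto (fun n => r (s n) x) atTop (𝓝 (r t x))
  tendsto_id : ∀ x, Tendsto (fun s => r s x) atTop (𝓝 x)

variable {K : Type u} [TopologicalSpace K]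

/-- The set `D(𝔰) = ⋃ r s [K]` induced by a retractional skeleton. -/
def RetractionalSkeleton.inducedSet {Γ : Type v} [PartialOrder Γ]
    (S : RetractionalSkeleton K Γ) : Set K :=
  ⋃ s, Set.range (S.r s)

/-- `R` (indexed by `Λ`) is, up to re-indexing, a subskeleton of `S` (indexed by `Γ`): there are a
σ-closed cofinal `Γ' ⊆ Γ` and an order isomorphism `φ : Λ → Γ'` with `R i = r (φ i)` for all `i`. -/
def IsSubskeleton {Λ : Type w} [PartialOrder Λ] {Γ : Type v} [PartialOrder Γ]
    (R : RetractionalSkeleton K Λ) (S : RetractionalSkeleton K Γ) : Prop :=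
  ∃ Γ' : Set Γ, SigmaClosed Γ' ∧ IsCofinal Γ' ∧ ∃ φ : Λ ≃o Γ', ∀ i, R.r i = S.r (φ i)

namespace RetractionalSkeleton

variable {Γ : Type v} [PartialOrder Γ] (S : RetractionalSkeleton K Γ)

theorem apply_idem (s : Γ) (x : K) : S.r s (S.r s x) = S.r s x := congrFun (S.idem s) x

theorem apply_right {s t : Γ} (h : s ≤ t) (x : K) : S.r s (S.r t x) = S.r s x :=
  (congrFun (S.comp_right s t h) x).symm

theorem apply_left {s t : Γ} (h : s ≤ t) (x : K) : S.r t (S.r s x) = S.r s x :=
  (congrFun (S.comp_left s t h) x).symm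

theorem mem_range_iff (s : Γ) (x : K) : x ∈ Set.range (S.r s) ↔ S.r s x = x := by
  constructor
  · rintro ⟨y, rfl⟩
    exact S.apply_idem s y
  · intro h
    exact ⟨x, h⟩

theorem range_mono {s t : Γ} (h : s ≤ t) : Set.range (S.r s) ⊆ Set.range (S.r t) := by
  intro x hx
  rw [mem_range_iff] at hx ⊢
  rw [← hx, S.apply_left h]

/-- The limit condition (3) holds for weakly increasing sequences as well. -/
theorem tendsto_sup' (s : ℕ → Γ) (t : Γ) (hs : Monotone s) (ht : IsLUB (Set.range s) t) (x : K) :
    Tendsto (fun n => S.r (s n) x) atTop (𝓝 (S.r t x)) := by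
  by_cases h : ∃ N, ∀ n, N ≤ n → s n = s N
  · obtain ⟨N, hN⟩ := h
    have htN : t = s N := by
      apply le_antisymm
      · apply ht.2
        rintro _ ⟨n, rfl⟩
        rcases le_total N n with h | h
        · exact (hN n h).le
        · exact hs h
      · exact ht.1 ⟨N, rfl⟩
    rw [htN]
    apply tendsto_const_nhds.congr'
    filter_upwards [eventually_ge_atTop N] with n hn
    rw [hN n hn]
  · push Not at h
    have h' : ∀ N, ∃ n, N ≤ n ∧ s N < s n := by
      intro N
      obtain ⟨n, hn, hne⟩ := h N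
      exact ⟨n, hn, lt_of_le_of_ne (hs hn) (Ne.symm hne)⟩
    apply tendsto_of_subseq_tendsto
    intro ns hns
    -- pick a further subsequence which is strictly increasing
    have step : ∀ m : ℕ, ∃ m' : ℕ, m < m' ∧ s (ns m) < s (ns m') := by
      intro m
      obtain ⟨n, hn, hlt⟩ := h' (ns m)
      obtain ⟨m', hm', hm''⟩ := ((eventually_gt_atTop m).and (hns.eventually_ge_atTop n)).exists
      exact ⟨m', hm', lt_of_lt_of_le hlt (hs hm'')⟩
    choose g hg1 hg2 using step
    let ms : ℕ → ℕ := fun k => g^[k] 0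
    have hms : StrictMono ms := by
      apply strictMono_nat_of_lt_succ
      intro k
      simp only [ms, Function.iterate_succ', Function.comp]
      exact hg1 _
    have hsm : StrictMono (fun k => s (ns (ms k))) := by
      apply strictMono_nat_of_lt_succ
      intro k
      simp only [ms, Function.iterate_succ', Function.comp]
      exact hg2 _
    refine ⟨ms, S.tendsto_sup _ t hsm ?_ x⟩
    constructor
    · rintro _ ⟨k, rfl⟩
      exact ht.1 ⟨_, rfl⟩
    · intro b hb
      apply ht.2
      rintro _ ⟨n, rfl⟩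
      have h1 : Tendsto (fun k => ns (ms k)) atTop atTop := hns.comp hms.tendsto_atTop
      obtain ⟨k, hk⟩ := (h1.eventually_ge_atTop n).exists
      exact (hs hk).trans (hb ⟨k, rfl⟩)

end RetractionalSkeleton

end Pool.Agent.helper68
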