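import Mathlib
import Pool.Agent.helper68.RSkelDefs

/-!
# Basic facts on retractional skeletons

Countable directedness, factorisation of maps into metrizable spaces, restriction to a σ-closed cofinal
set of indices, transport along order isomorphisms, and agreement of two skeletons on a σ-closed cofinal
set of indices.
-/

set_option autoImplicit false

open Set Filter Topology

namespace Pool.Agent.helper68

universe u v w

namespace RetractionalSkeleton

variable {K : Type u} [TopologicalSpace K] {Γ : Type v} [PartialOrder Γ]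

/-- Countable subsets of the index poset are bounded above. -/
theorem exists_ub (S : RetractionalSkeleton K Γ) (a : ℕ → Γ) : ∃ t : Γ, ∀ n, a n ≤ t := by
  choose q hq1 hq2 using S.directed
  let b : ℕ → Γ := fun n => Nat.rec (a 0) (fun k bk => q bk (a (k + 1))) n
  have hb : Monotone b := monotone_nat_of_le_succ fun n => hq1 _ _
  have hab : ∀ n, a n ≤ b n := by
    intro n
    cases n with
    | zero => exact le_rfl
    | succ n => exact hq2 _ _
  obtain ⟨t, ht⟩ := S.sigmaComplete b hb
  exact ⟨t, fun n => (hab n).trans (ht.1 ⟨n, rfl⟩)⟩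

theorem exists_ub_of_countable (S : RetractionalSkeleton K Γ) {ι : Type w} [Countable ι] (a : ι → Γ) :
    ∃ t : Γ, ∀ i, a i ≤ t := by
  rcases isEmpty_or_nonempty ι with h | h
  · obtain ⟨s⟩ := S.nonempty
    exact ⟨s, fun i => (h.false i).elim⟩
  · obtain ⟨f, hf⟩ := exists_surjective_nat ι
    obtain ⟨t, ht⟩ := S.exists_ub (fun n => a (f n))
    refine ⟨t, fun i => ?_⟩
    obtain ⟨n, rfl⟩ := hf i
    exact ht n

theorem isClosed_range [T2Space K] (S : RetractionalSkeleton K Γ) (s : Γ) : IsClosed (Set.range (S.r s)) := by
  have : Set.range (S.r s) = {x | S.r s x = x} := by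
    ext x
    exact S.mem_range_iff s x
  rw [this]
  exact isClosed_eq (S.continuous_r s) continuous_id

/-- For every continuous real function `f` there is an index `s` with `f ∘ r s = f`. -/
theorem exists_factor_real [CompactSpace K] [T2Space K] (S : RetractionalSkeleton K Γ) (f : C(K, ℝ)) :
    ∃ s, ∀ x, f (S.r s x) = f x := by
  obtain ⟨s₀⟩ := S.nonempty
  have key : ∀ (f : C(K, ℝ)) (s t : Γ), s ≤ t → (∀ x, f (S.r s x) = f x) →
      ∀ x, f (S.r t x) = f x := by
    intro f s t hst h x
    rw [← h, S.apply_right hst, h]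
  let A : Subalgebra ℝ C(K, ℝ) :=
    { carrier := {f | ∃ s, ∀ x, f (S.r s x) = f x}
      mul_mem' := by
        rintro f g ⟨s, hs⟩ ⟨t, ht⟩
        obtain ⟨q, h1, h2⟩ := S.directed s t
        refine ⟨q, fun x => ?_⟩
        simp only [ContinuousMap.mul_apply]
        rw [key f s q h1 hs, key g t q h2 ht]
      add_mem' := by
        rintro f g ⟨s, hs⟩ ⟨t, ht⟩
        obtain ⟨q, h1, h2⟩ := S.directed s t
        refine ⟨q, fun x => ?_⟩
        simp only [ContinuousMap.add_apply]
        rw [key f s q h1 hs, key g t q h2 ht]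
      algebraMap_mem' := by
        intro c
        exact ⟨s₀, fun x => rfl⟩ }
  have hsep : A.SeparatesPoints := by
    intro x y hxy
    have : ∃ s, S.r s x ≠ S.r s y := by
      by_contra hcon
      push Not at hcon
      apply hxy
      have h1 := S.tendsto_id x
      have h2 := S.tendsto_id y
      have h3 : Tendsto (fun s => S.r s x) atTop (𝓝 y) := by
        refine h2.congr fun s => (hcon s).symm
      have : Nonempty Γ := S.nonempty
      have : IsDirectedOrder Γ := ⟨fun s t => S.directed s t⟩
      exact tendsto_nhds_unique h1 h3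
    obtain ⟨s, hs⟩ := this
    obtain ⟨g, hg0, hg1, -⟩ := exists_continuous_zero_one_of_isClosed
      (isClosed_singleton (x := S.r s x)) (isClosed_singleton (x := S.r s y))
      (by simpa using hs)
    refine ⟨_, ⟨g.comp ⟨S.r s, S.continuous_r s⟩, ⟨s, fun z => ?_⟩, rfl⟩, ?_⟩
    · simp [S.apply_idem]
    · have e0 : g (S.r s x) = 0 := hg0 rfl
      have e1 : g (S.r s y) = 1 := hg1 rfl
      simp [e0, e1]
  have htop := ContinuousMap.subalgebra_topologicalClosure_eq_top_of_separatesPoints A hsep
  have hf : f ∈ A.topologicalClosure := by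
    rw [htop]
    exact Algebra.mem_top
  have hf' : f ∈ closure (A : Set C(K, ℝ)) := hf
  rw [mem_closure_iff_seq_limit] at hf'
  obtain ⟨g, hgA, hgf⟩ := hf'
  have hgA' : ∀ n, ∃ s, ∀ x, g n (S.r s x) = g n x := hgA
  choose s hs using hgA'
  obtain ⟨t, ht⟩ := S.exists_ub s
  refine ⟨t, fun x => ?_⟩
  have h1 : Tendsto (fun n => g n (S.r t x)) atTop (𝓝 (f (S.r t x))) :=
    ((continuous_eval_const (S.r t x)).tendsto f).comp hgf
  have h2 : Tendsto (fun n => g n x) atTop (𝓝 (f x)) :=
    ((continuous_eval_const x).tendsto f).comp hgf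
  have h3 : (fun n => g n (S.r t x)) = fun n => g n x := by
    funext n
    exact key (g n) (s n) t (ht n) (hs n) x
  rw [h3] at h1
  exact tendsto_nhds_unique h1 h2

/-- Every continuous map from `K` into a space whose points are separated by countably many real
continuous functions factors through some `r s`. -/
theorem exists_factor [CompactSpace K] [T2Space K] (S : RetractionalSkeleton K Γ) {Z : Type w} [TopologicalSpace Z]
    (h : ℕ → Z → ℝ) (hc : ∀ n, Continuous (h n)) (hsep : ∀ y z, (∀ n, h n y = h n z) → y = z)
    (g : K → Z) (hg : Continuous g) : ∃ s, ∀ x, g (S.r s x) = g x := by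
  have h1 : ∀ n, ∃ s, ∀ x, h n (g (S.r s x)) = h n (g x) := fun n =>
    S.exists_factor_real ⟨fun x => h n (g x), (hc n).comp hg⟩
  choose s hs using h1
  obtain ⟨t, ht⟩ := S.exists_ub s
  refine ⟨t, fun x => hsep _ _ fun n => ?_⟩
  rw [← hs n, S.apply_right (ht n), hs n]

end RetractionalSkeleton

/-- In a compact metrizable space countably many continuous real functions separate points. -/
theorem exists_separating_seq (Z : Type u) [TopologicalSpace Z] [CompactSpace Z]
    [TopologicalSpace.MetrizableSpace Z] :
    ∃ h : ℕ → Z → ℝ, (∀ n, Continuous (h n)) ∧ ∀ y z, (∀ n, h n y = h n z) → y = z := by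
  let : MetricSpace Z := TopologicalSpace.metrizableSpaceMetric Z
  rcases isEmpty_or_nonempty Z with hZ | hZ
  · exact ⟨fun _ _ => 0, fun _ => continuous_const, fun y => (hZ.false y).elim⟩
  · refine ⟨fun n z => dist z (TopologicalSpace.denseSeq Z n),
      fun n => continuous_id.dist continuous_const, ?_⟩
    intro y z hyz
    by_contra hne
    have hpos : 0 < dist y z := dist_pos.mpr hne
    obtain ⟨n, hn⟩ := (TopologicalSpace.denseRange_denseSeq Z).exists_dist_lt y
      (half_pos hpos)
    have h2 : dist z (TopologicalSpace.denseSeq Z n) < dist y z / 2 := by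
      have := hyz n
      simp only at this
      rw [← this]; exact hn
    have h3 : dist y z ≤ dist y (TopologicalSpace.denseSeq Z n)
        + dist z (TopologicalSpace.denseSeq Z n) := dist_triangle_right _ _ _
    linarith

namespace RetractionalSkeleton

variable {K : Type u} [TopologicalSpace K] [CompactSpace K] [T2Space K]

/-- Two retractional skeletons inducing the same set: each retraction of the first is dominated by a
retraction of the second (and then by all later ones). -/
theorem exists_dominating {Γ : Type v} [PartialOrder Γ] {Γ' : Type w} [PartialOrder Γ']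
    (S : RetractionalSkeleton K Γ) (T : RetractionalSkeleton K Γ')
    (h : S.inducedSet ⊆ T.inducedSet) (s : Γ) :
    ∃ t₀ : Γ', ∀ t, t₀ ≤ t → (∀ x, T.r t (S.r s x) = S.r s x) ∧ ∀ x, S.r s (T.r t x) = S.r s x := by
  have := S.metrizable s
  have : CompactSpace (Set.range (S.r s)) :=
    isCompact_iff_compactSpace.mp (S.isClosed_range s).isCompact
  obtain ⟨hh, hhc, hhsep⟩ := exists_separating_seq (Set.range (S.r s))
  obtain ⟨t₁, ht₁⟩ := T.exists_factor hh hhc hhsep (fun x => (⟨S.r s x, x, rfl⟩ : Set.range (S.r s)))
    (Continuous.subtype_mk (S.continuous_r s) _)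
  -- a countable dense subset of the range
  let : MetricSpace (Set.range (S.r s)) := TopologicalSpace.metrizableSpaceMetric _
  obtain ⟨E, hEc, hEd⟩ := TopologicalSpace.exists_countable_dense (Set.range (S.r s))
  have hE : ∀ e : E, ∃ t, ((e : Set.range (S.r s)) : K) ∈ Set.range (T.r t) := by
    intro e
    have : ((e : Set.range (S.r s)) : K) ∈ S.inducedSet :=
      Set.mem_iUnion.mpr ⟨s, (e : Set.range (S.r s)).2⟩
    exact Set.mem_iUnion.mp (h this)
  choose τ hτ using hE
  have : Countable E := hEc.to_subtype
  obtain ⟨t₂, ht₂⟩ := T.exists_ub_of_countable τ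
  obtain ⟨t₀, h1, h2⟩ := T.directed t₁ t₂
  refine ⟨t₀, fun t ht => ⟨?_, ?_⟩⟩
  · -- the range of `S.r s` is contained in the range of `T.r t`
    have hclosed : IsClosed {z : Set.range (S.r s) | T.r t (z : K) = (z : K)} :=
      isClosed_eq ((T.continuous_r t).comp continuous_subtype_val) continuous_subtype_val
    have hsub : E ⊆ {z : Set.range (S.r s) | T.r t (z : K) = (z : K)} := by
      intro z hz
      have := T.range_mono ((ht₂ ⟨z, hz⟩).trans (h2.trans ht)) (hτ ⟨z, hz⟩)
      exact (T.mem_range_iff t _).mp this
    have hall : ∀ z : Set.range (S.r s), T.r t (z : K) = (z : K) := by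
      intro z
      have := hEd z
      exact (closure_minimal hsub hclosed) this
    intro x
    exact hall ⟨S.r s x, x, rfl⟩
  · intro x
    have e1 : ∀ x, S.r s (T.r t₁ x) = S.r s x := fun x => congrArg Subtype.val (ht₁ x)
    rw [← e1, T.apply_right (h1.trans ht), e1]

end RetractionalSkeleton

end Pool.Agent.helper68
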