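import Mathlib
import Pool.Agent.helper68.RSkelBasic

/-!
# Restriction of retractional skeletons, and agreement of skeletons with one index poset
-/

set_option autoImplicit false

open Set Filter Topology

namespace Pool.Agent.helper68

universe u v w

section order

variable {Γ : Type v} [PartialOrder Γ] {Λ : Type w} [PartialOrder Λ]

/-- suprema of increasing sequences are the same in a σ-closed subset -/
theorem SigmaClosed.exists_isLUB {Γ' : Set Γ} (h1 : SigmaClosed Γ') (φ : Λ ≃o Γ')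
    (hσ : ∀ s : ℕ → Γ, Monotone s → ∃ t : Γ, IsLUB (Set.range s) t)
    (s : ℕ → Λ) (hs : Monotone s) :
    ∃ i : Λ, IsLUB (Set.range s) i ∧ IsLUB (Set.range fun n => (φ (s n) : Γ)) (φ i : Γ) := by
  have hm : Monotone fun n => (φ (s n) : Γ) := fun m n h => φ.monotone (hs h)
  obtain ⟨t, ht⟩ := hσ _ hm
  have htm : t ∈ Γ' := h1 _ t hm (fun n => (φ (s n)).2) ht
  refine ⟨φ.symm ⟨t, htm⟩, ⟨?_, ?_⟩, ?_⟩
  · rintro _ ⟨n, rfl⟩
    rw [← φ.symm_apply_apply (s n)]
    exact φ.symm.monotone (ht.1 ⟨n, rfl⟩)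
  · intro b hb
    rw [← φ.symm_apply_apply b]
    apply φ.symm.monotone
    apply ht.2
    rintro _ ⟨n, rfl⟩
    exact φ.monotone (hb ⟨n, rfl⟩)
  · rw [φ.apply_symm_apply]
    exact ht

theorem SigmaClosed.isLUB_image {Γ' : Set Γ} (h1 : SigmaClosed Γ') (φ : Λ ≃o Γ')
    (hσ : ∀ s : ℕ → Γ, Monotone s → ∃ t : Γ, IsLUB (Set.range s) t)
    (s : ℕ → Λ) (hs : Monotone s) (i : Λ) (hi : IsLUB (Set.range s) i) :
    IsLUB (Set.range fun n => (φ (s n) : Γ)) (φ i : Γ) := by
  obtain ⟨j, hj1, hj2⟩ := h1.exists_isLUB φ hσ s hs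
  rw [hi.unique hj1]
  exact hj2

end order

namespace RetractionalSkeleton

variable {K : Type u} [TopologicalSpace K] {Γ : Type v} [PartialOrder Γ] {Λ : Type w}
  [PartialOrder Λ]

/-- The re-indexed subskeleton `(r (φ i))_{i ∈ Λ}`, for an order isomorphism `φ` of `Λ` onto a
σ-closed cofinal subset of `Γ`. -/
def pullback (S : RetractionalSkeleton K Γ) (Γ' : Set Γ) (h1 : SigmaClosed Γ') (h2 : IsCofinal Γ')
    (φ : Λ ≃o Γ') : RetractionalSkeleton K Λ where
  r i := S.r (φ i)
  nonempty := by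
    obtain ⟨s⟩ := S.nonempty
    obtain ⟨t, ht, -⟩ := h2 s
    exact ⟨φ.symm ⟨t, ht⟩⟩
  directed := by
    intro i j
    obtain ⟨q, hq1, hq2⟩ := S.directed (φ i) (φ j)
    obtain ⟨t, ht, hqt⟩ := h2 q
    refine ⟨φ.symm ⟨t, ht⟩, ?_, ?_⟩
    · rw [← φ.symm_apply_apply i]
      exact φ.symm.monotone (show (φ i : Γ) ≤ t from hq1.trans hqt)
    · rw [← φ.symm_apply_apply j]
      exact φ.symm.monotone (show (φ j : Γ) ≤ t from hq2.trans hqt)
  sigmaComplete := by
    intro s hs
    obtain ⟨i, hi, -⟩ := h1.exists_isLUB φ S.sigmaComplete s hs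
    exact ⟨i, hi⟩
  continuous_r i := S.continuous_r _
  idem i := S.idem _
  metrizable i := S.metrizable _
  comp_right i j h := S.comp_right _ _ (φ.monotone h)
  comp_left i j h := S.comp_left _ _ (φ.monotone h)
  tendsto_sup := by
    intro s i hs hi x
    apply S.tendsto_sup' (fun n => (φ (s n) : Γ)) (φ i) (fun m n h => φ.monotone (hs.monotone h))
    exact h1.isLUB_image φ S.sigmaComplete s hs.monotone i hi
  tendsto_id := by
    intro x
    have h3 : Tendsto (fun i : Λ => (φ i : Γ)) atTop atTop := by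
      apply Filter.tendsto_atTop_atTop_of_monotone
      · intro i j h
        exact φ.monotone h
      · intro b
        obtain ⟨t, ht, hbt⟩ := h2 b
        exact ⟨φ.symm ⟨t, ht⟩, by rw [φ.apply_symm_apply]; exact hbt⟩
    exact (S.tendsto_id x).comp h3

theorem pullback_r (S : RetractionalSkeleton K Γ) (Γ' : Set Γ) (h1 : SigmaClosed Γ')
    (h2 : IsCofinal Γ') (φ : Λ ≃o Γ') (i : Λ) : (S.pullback Γ' h1 h2 φ).r i = S.r (φ i) := rfl

theorem pullback_inducedSet (S : RetractionalSkeleton K Γ) (Γ' : Set Γ) (h1 : SigmaClosed Γ')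
    (h2 : IsCofinal Γ') (φ : Λ ≃o Γ') : (S.pullback Γ' h1 h2 φ).inducedSet = S.inducedSet := by
  apply Set.Subset.antisymm
  · intro x hx
    obtain ⟨i, hi⟩ := Set.mem_iUnion.mp hx
    exact Set.mem_iUnion.mpr ⟨φ i, hi⟩
  · intro x hx
    obtain ⟨s, hs⟩ := Set.mem_iUnion.mp hx
    obtain ⟨t, ht, hst⟩ := h2 s
    refine Set.mem_iUnion.mpr ⟨φ.symm ⟨t, ht⟩, ?_⟩
    rw [pullback_r, φ.apply_symm_apply]
    exact S.range_mono hst hs

variable [CompactSpace K] [T2Space K]

/-- The set of indices at which all the skeletons of a sequence (with one index poset) agree. -/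
def agreeSet (S : ℕ → RetractionalSkeleton K Λ) : Set Λ := {i | ∀ n m, (S n).r i = (S m).r i}

omit [CompactSpace K] in
theorem agreeSet_sigmaClosed (S : ℕ → RetractionalSkeleton K Λ) : SigmaClosed (agreeSet S) := by
  intro s t hs hst ht n m
  funext x
  have h1 := (S n).tendsto_sup' s t hs ht x
  have h2 := (S m).tendsto_sup' s t hs ht x
  have h3 : (fun k => (S n).r (s k) x) = fun k => (S m).r (s k) x := by
    funext k
    rw [hst k n m]
  rw [h3] at h1
  exact tendsto_nhds_unique h1 h2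

theorem agreeSet_isCofinal (S : ℕ → RetractionalSkeleton K Λ)
    (h : ∀ n m, (S n).inducedSet = (S m).inducedSet) : IsCofinal (agreeSet S) := by
  intro i₀
  have hdom : ∀ (n m : ℕ) (i : Λ), ∃ t₀ : Λ, ∀ t, t₀ ≤ t →
      (∀ x, (S m).r t ((S n).r i x) = (S n).r i x) ∧
      ∀ x, (S n).r i ((S m).r t x) = (S n).r i x := fun n m i =>
    exists_dominating (S n) (S m) (h n m).subset i
  choose t₀ ht₀ using hdom
  have hg : ∀ i : Λ, ∃ g : Λ, i ≤ g ∧ ∀ n m, t₀ n m i ≤ g := by
    intro i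
    obtain ⟨g, hg⟩ := (S 0).exists_ub_of_countable
      (fun p : Option (ℕ × ℕ) => p.elim i (fun q => t₀ q.1 q.2 i))
    exact ⟨g, hg none, fun n m => hg (some (n, m))⟩
  choose g hg1 hg2 using hg
  let a : ℕ → Λ := fun k => g^[k] i₀
  have ha : ∀ k, a (k + 1) = g (a k) := fun k => Function.iterate_succ_apply' g k i₀
  have hmono : Monotone a := monotone_nat_of_le_succ fun k => by rw [ha]; exact hg1 _
  obtain ⟨t, ht⟩ := (S 0).sigmaComplete a hmono
  have hat : ∀ n m k, t₀ n m (a k) ≤ t := fun n m k =>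
    (hg2 (a k) n m).trans (by rw [← ha]; exact ht.1 ⟨k + 1, rfl⟩)
  have e1 : ∀ n m x, (S m).r t ((S n).r t x) = (S n).r t x := by
    intro n m x
    have h1 := (S n).tendsto_sup' a t hmono ht x
    have h2 : Tendsto (fun k => (S m).r t ((S n).r (a k) x)) atTop (𝓝 ((S m).r t ((S n).r t x))) :=
      (((S m).continuous_r t).tendsto _).comp h1
    have h3 : (fun k => (S m).r t ((S n).r (a k) x)) = fun k => (S n).r (a k) x := by
      funext k
      exact (ht₀ n m (a k) t (hat n m k)).1 x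
    rw [h3] at h2
    exact tendsto_nhds_unique h2 h1
  have e2 : ∀ n m x, (S n).r t ((S m).r t x) = (S n).r t x := by
    intro n m x
    have h1 := (S n).tendsto_sup' a t hmono ht x
    have h2 := (S n).tendsto_sup' a t hmono ht ((S m).r t x)
    have h3 : (fun k => (S n).r (a k) ((S m).r t x)) = fun k => (S n).r (a k) x := by
      funext k
      exact (ht₀ n m (a k) t (hat n m k)).2 x
    rw [h3] at h2
    exact tendsto_nhds_unique h2 h1
  refine ⟨t, fun n m => ?_, ht.1 ⟨0, rfl⟩⟩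
  funext x
  rw [← e1 n m x, e2 m n x]

end RetractionalSkeleton

end Pool.Agent.helper68
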