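import Mathlib
import Pool.Agent.helper68.RSkelAgree

/-!
# The projections on `C(K, ℝ)` attached to a retractional skeleton
-/

set_option autoImplicit false
set_option linter.unusedSectionVars false

open Set Filter Topology

namespace Pool.Agent.helper68

universe u v w

namespace RetractionalSkeleton

variable {K : Type u} [TopologicalSpace K] {Γ : Type v} [PartialOrder Γ]

/-- composition with `r s` as a map on `C(K, ℝ)` -/
def P (S : RetractionalSkeleton K Γ) (s : Γ) (f : C(K, ℝ)) : C(K, ℝ) :=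
  f.comp ⟨S.r s, S.continuous_r s⟩

theorem P_apply (S : RetractionalSkeleton K Γ) (s : Γ) (f : C(K, ℝ)) (x : K) :
    S.P s f x = f (S.r s x) := rfl

theorem P_P_ge (S : RetractionalSkeleton K Γ) {s t : Γ} (h : s ≤ t) (f : C(K, ℝ)) :
    S.P t (S.P s f) = S.P s f := by
  ext x
  simp only [P_apply]
  rw [S.apply_right h]

theorem P_P_le (S : RetractionalSkeleton K Γ) {s t : Γ} (h : s ≤ t) (f : C(K, ℝ)) :
    S.P s (S.P t f) = S.P s f := by
  ext x
  simp only [P_apply]
  rw [S.apply_left h]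

theorem P_fix_mono (S : RetractionalSkeleton K Γ) {s t : Γ} (h : s ≤ t) {f : C(K, ℝ)}
    (hf : S.P s f = f) : S.P t f = f := by
  rw [← hf, S.P_P_ge h]

variable [CompactSpace K]

theorem P_dist (S : RetractionalSkeleton K Γ) (s : Γ) (f g : C(K, ℝ)) :
    dist (S.P s f) (S.P s g) ≤ dist f g := by
  rw [ContinuousMap.dist_le dist_nonneg]
  intro x
  exact ContinuousMap.dist_apply_le_dist (S.r s x)

variable [T2Space K]

/-- norm continuity of the projections along increasing sequences of indices -/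
theorem tendsto_P (S : RetractionalSkeleton K Γ) (s : ℕ → Γ) (t : Γ) (hs : Monotone s)
    (ht : IsLUB (Set.range s) t) (f : C(K, ℝ)) :
    Tendsto (fun n => S.P (s n) f) atTop (𝓝 (S.P t f)) := by
  have hst : ∀ n, s n ≤ t := fun n => ht.1 ⟨n, rfl⟩
  let Kt : Set K := Set.range (S.r t)
  have : CompactSpace Kt := isCompact_iff_compactSpace.mp (S.isClosed_range t).isCompact
  have hmem : ∀ n (y : K), S.r (s n) y ∈ Kt := fun n y => S.range_mono (hst n) ⟨y, rfl⟩
  let A : Subalgebra ℝ C(Kt, ℝ) :=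
    { carrier := {g | ∃ N, ∀ n, N ≤ n → ∀ y : Kt, g ⟨S.r (s n) y, hmem n y⟩ = g y}
      mul_mem' := by
        rintro f g ⟨N, hN⟩ ⟨M, hM⟩
        refine ⟨max N M, fun n hn y => ?_⟩
        simp only [ContinuousMap.mul_apply]
        rw [hN n (le_trans (le_max_left _ _) hn), hM n (le_trans (le_max_right _ _) hn)]
      add_mem' := by
        rintro f g ⟨N, hN⟩ ⟨M, hM⟩
        refine ⟨max N M, fun n hn y => ?_⟩
        simp only [ContinuousMap.add_apply]
        rw [hN n (le_trans (le_max_left _ _) hn), hM n (le_trans (le_max_right _ _) hn)]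
      algebraMap_mem' := by
        intro c
        exact ⟨0, fun n _ y => rfl⟩ }
  have hsep : A.SeparatesPoints := by
    intro y z hyz
    have hyz' : (y : K) ≠ z := fun h => hyz (Subtype.ext h)
    have hy : Tendsto (fun n => S.r (s n) y) atTop (𝓝 (y : K)) := by
      have := S.tendsto_sup' s t hs ht y
      rwa [(S.mem_range_iff t y).mp y.2] at this
    have hz : Tendsto (fun n => S.r (s n) z) atTop (𝓝 (z : K)) := by
      have := S.tendsto_sup' s t hs ht z
      rwa [(S.mem_range_iff t z).mp z.2] at this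
    have : ∃ n, S.r (s n) y ≠ S.r (s n) z := by
      by_contra hcon
      push Not at hcon
      apply hyz'
      have h3 : Tendsto (fun n => S.r (s n) (y : K)) atTop (𝓝 (z : K)) :=
        hz.congr fun n => (hcon n).symm
      exact tendsto_nhds_unique hy h3
    obtain ⟨n, hn⟩ := this
    obtain ⟨g, hg0, hg1, -⟩ := exists_continuous_zero_one_of_isClosed
      (isClosed_singleton (x := S.r (s n) y)) (isClosed_singleton (x := S.r (s n) z))
      (by simpa using hn)
    let g' : C(Kt, ℝ) := ⟨fun w => g (S.r (s n) w),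
      g.continuous.comp ((S.continuous_r _).comp continuous_subtype_val)⟩
    refine ⟨_, ⟨g', ⟨n, fun m hm w => ?_⟩, rfl⟩, ?_⟩
    · change g (S.r (s n) (S.r (s m) w)) = g (S.r (s n) w)
      rw [S.apply_right (hs hm)]
    · have e0 : g (S.r (s n) y) = 0 := hg0 rfl
      have e1 : g (S.r (s n) z) = 1 := hg1 rfl
      change g (S.r (s n) y) ≠ g (S.r (s n) z)
      rw [e0, e1]
      exact zero_ne_one
  have htop := ContinuousMap.subalgebra_topologicalClosure_eq_top_of_separatesPoints A hsep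
  let f' : C(Kt, ℝ) := ⟨fun w => f w, f.continuous.comp continuous_subtype_val⟩
  have hf : f' ∈ A.topologicalClosure := by
    rw [htop]
    exact Algebra.mem_top
  have hf' : f' ∈ closure (A : Set C(Kt, ℝ)) := hf
  rw [Metric.tendsto_atTop]
  intro ε hε
  obtain ⟨g, ⟨N, hN⟩, hg⟩ := Metric.mem_closure_iff.mp hf' (ε / 3) (by positivity)
  refine ⟨N, fun n hn => ?_⟩
  have hle : dist (S.P (s n) f) (S.P t f) ≤ 2 * (ε / 3) := by
    rw [ContinuousMap.dist_le (by positivity)]
    intro x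
    simp only [P_apply]
    let y : Kt := ⟨S.r t x, x, rfl⟩
    have h1 : S.r (s n) x = S.r (s n) y := (S.apply_right (hst n) x).symm
    have h2 : dist (f (S.r (s n) y)) (g ⟨S.r (s n) y, hmem n y⟩) ≤ ε / 3 := by
      have := (ContinuousMap.dist_apply_le_dist (f := f') (g := g) ⟨S.r (s n) y, hmem n y⟩).trans
        hg.le
      exact this
    have h3 : dist (f (y : K)) (g y) ≤ ε / 3 :=
      (ContinuousMap.dist_apply_le_dist (f := f') (g := g) y).trans hg.le
    rw [hN n hn y] at h2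
    rw [h1]
    calc dist (f (S.r (s n) y)) (f (S.r t x)) ≤
        dist (f (S.r (s n) y)) (g y) + dist (f (y : K)) (g y) := dist_triangle_right _ _ _
      _ ≤ ε / 3 + ε / 3 := add_le_add h2 h3
      _ = 2 * (ε / 3) := by ring
  linarith

/-- In a directed set of indices the net of projections is Cauchy. -/
theorem cauchy_P (S : RetractionalSkeleton K Γ) (M : Set Γ) (hne : M.Nonempty)
    (f : C(K, ℝ)) {ε : ℝ} (hε : 0 < ε) :
    ∃ s ∈ M, ∀ s' ∈ M, s ≤ s' → dist (S.P s' f) (S.P s f) ≤ ε := by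
  by_contra hcon
  push Not at hcon
  have h' : ∀ s : M, ∃ s' : M, s ≤ s' ∧ ε < dist (S.P s' f) (S.P s f) := by
    intro s
    obtain ⟨s', hs', h1, h2⟩ := hcon s s.2
    exact ⟨⟨s', hs'⟩, h1, h2⟩
  choose g hg1 hg2 using h'
  obtain ⟨s₀, hs₀⟩ := hne
  let a : ℕ → M := fun n => g^[n] ⟨s₀, hs₀⟩
  have ha : ∀ n, a (n + 1) = g (a n) := fun n => Function.iterate_succ_apply' g n _
  have hmono : Monotone fun n => (a n : Γ) := monotone_nat_of_le_succ fun n => by
    rw [ha]
    exact hg1 _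
  obtain ⟨t, ht⟩ := S.sigmaComplete _ hmono
  have hlim := S.tendsto_P _ t hmono ht f
  have hcau := hlim.cauchySeq
  obtain ⟨N, hN⟩ := Metric.cauchySeq_iff.mp hcau ε hε
  have h1 := hN (N + 1) (by omega) N le_rfl
  have h2 := hg2 (a N)
  rw [← ha N] at h2
  linarith

theorem exists_Q (S : RetractionalSkeleton K Γ) (M : Set Γ) (hne : M.Nonempty)
    (hdir : DirectedOn (· ≤ ·) M) (f : C(K, ℝ)) :
    ∃ q : C(K, ℝ), ∀ ε : ℝ, 0 < ε → ∃ s ∈ M, ∀ s' ∈ M, s ≤ s' → dist (S.P s' f) q ≤ ε := by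
  have h := fun n : ℕ => S.cauchy_P M hne f (ε := 1 / ((n : ℝ) + 1)) Nat.one_div_pos_of_nat
  choose s hsM hs using h
  have hc : CauchySeq fun n => S.P (s n) f := by
    rw [Metric.cauchySeq_iff']
    intro ε hε
    obtain ⟨N, hN⟩ := exists_nat_one_div_lt (half_pos hε)
    refine ⟨N, fun n hn => ?_⟩
    obtain ⟨q, hq, h1, h2⟩ := hdir (s n) (hsM n) (s N) (hsM N)
    have e1 := hs n q hq h1
    have e2 := hs N q hq h2
    have e3 : (1 : ℝ) / ((n : ℝ) + 1) ≤ 1 / ((N : ℝ) + 1) := by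
      apply one_div_le_one_div_of_le
      · positivity
      · have : (N : ℝ) ≤ n := by exact_mod_cast hn
        linarith
    have e4 := dist_triangle_left (S.P (s n) f) (S.P (s N) f) (S.P q f)
    linarith
  obtain ⟨q, hq⟩ := cauchySeq_tendsto_of_complete hc
  refine ⟨q, fun ε hε => ?_⟩
  obtain ⟨N, hN⟩ := exists_nat_one_div_lt (half_pos hε)
  obtain ⟨N', hN'⟩ := Metric.tendsto_atTop.mp hq (ε / 2) (half_pos hε)
  let n := max N N'
  refine ⟨s n, hsM n, fun s' hs' hle => ?_⟩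
  have e1 := hs n s' hs' hle
  have e2 := hN' n (le_max_right _ _)
  have e3 : (1 : ℝ) / ((n : ℝ) + 1) ≤ 1 / ((N : ℝ) + 1) := by
    apply one_div_le_one_div_of_le
    · positivity
    · have : (N : ℝ) ≤ n := by exact_mod_cast (le_max_left N N')
      linarith
  have e4 := dist_triangle (S.P s' f) (S.P (s n) f) q
  linarith

open Classical in
/-- the limit of `f ∘ r s` along the directed set of indices `M` -/
noncomputable def Q (S : RetractionalSkeleton K Γ) (M : Set Γ) (f : C(K, ℝ)) : C(K, ℝ) :=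
  if h : ∃ q : C(K, ℝ), ∀ ε : ℝ, 0 < ε → ∃ s ∈ M, ∀ s' ∈ M, s ≤ s' → dist (S.P s' f) q ≤ ε
  then h.choose else 0

theorem Q_spec (S : RetractionalSkeleton K Γ) (M : Set Γ) (hne : M.Nonempty)
    (hdir : DirectedOn (· ≤ ·) M) (f : C(K, ℝ)) {ε : ℝ} (hε : 0 < ε) :
    ∃ s ∈ M, ∀ s' ∈ M, s ≤ s' → dist (S.P s' f) (S.Q M f) ≤ ε := by
  have h := S.exists_Q M hne hdir f
  have : S.Q M f = h.choose := by
    unfold Q
    rw [dif_pos h]
  rw [this]
  exact h.choose_spec ε hε

theorem Q_dist (S : RetractionalSkeleton K Γ) (M : Set Γ) (hne : M.Nonempty)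
    (hdir : DirectedOn (· ≤ ·) M) (f g : C(K, ℝ)) : dist (S.Q M f) (S.Q M g) ≤ dist f g := by
  apply le_of_forall_pos_le_add
  intro ε hε
  obtain ⟨s, hs, h1⟩ := S.Q_spec M hne hdir f (half_pos hε)
  obtain ⟨t, ht, h2⟩ := S.Q_spec M hne hdir g (half_pos hε)
  obtain ⟨q, hq, hsq, htq⟩ := hdir s hs t ht
  have e1 := h1 q hq hsq
  have e2 := h2 q hq htq
  have e3 := S.P_dist q f g
  have e4 := dist_triangle4 (S.Q M f) (S.P q f) (S.P q g) (S.Q M g)
  rw [dist_comm (S.Q M f) (S.P q f)] at e4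
  linarith

/-- the closed set of functions which are limits of functions invariant under some `r s`, `s ∈ M` -/
def CM (S : RetractionalSkeleton K Γ) (M : Set Γ) : Set C(K, ℝ) :=
  closure {g | ∃ s ∈ M, S.P s g = g}

theorem CM_mono (S : RetractionalSkeleton K Γ) {M N : Set Γ} (h : M ⊆ N) : S.CM M ⊆ S.CM N :=
  closure_mono fun _ ⟨s, hs, hg⟩ => ⟨s, h hs, hg⟩

theorem isClosed_CM (S : RetractionalSkeleton K Γ) (M : Set Γ) : IsClosed (S.CM M) :=
  isClosed_closure

theorem mem_CM_of_fix (S : RetractionalSkeleton K Γ) {M : Set Γ} {s : Γ} (hs : s ∈ M)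
    {g : C(K, ℝ)} (hg : S.P s g = g) : g ∈ S.CM M := subset_closure ⟨s, hs, hg⟩

theorem Q_eq_of_mem (S : RetractionalSkeleton K Γ) (M : Set Γ) (hne : M.Nonempty)
    (hdir : DirectedOn (· ≤ ·) M) {f : C(K, ℝ)} (hf : f ∈ S.CM M) : S.Q M f = f := by
  have h1 : ∀ g ∈ {g | ∃ s ∈ M, S.P s g = g}, S.Q M g = g := by
    rintro g ⟨s, hs, hg⟩
    apply eq_of_forall_dist_le
    intro ε hε
    obtain ⟨t, ht, h2⟩ := S.Q_spec M hne hdir g hε
    obtain ⟨q, hq, hsq, htq⟩ := hdir s hs t ht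
    have e1 := h2 q hq htq
    rw [S.P_fix_mono hsq hg, dist_comm] at e1
    exact e1
  apply eq_of_forall_dist_le
  intro ε hε
  obtain ⟨g, hg, hd⟩ := Metric.mem_closure_iff.mp hf (ε / 2) (half_pos hε)
  have e1 := h1 g hg
  have e2 := S.Q_dist M hne hdir f g
  rw [e1] at e2
  have e3 := dist_triangle_right (S.Q M f) f g
  linarith

theorem Q_mem_CM (S : RetractionalSkeleton K Γ) (M : Set Γ) (hne : M.Nonempty)
    (hdir : DirectedOn (· ≤ ·) M) (f : C(K, ℝ)) : S.Q M f ∈ S.CM M := by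
  unfold CM
  rw [Metric.mem_closure_iff]
  intro ε hε
  obtain ⟨s, hs, h⟩ := S.Q_spec M hne hdir f (half_pos hε)
  refine ⟨S.P s f, ⟨s, hs, S.P_P_ge le_rfl f⟩, ?_⟩
  rw [dist_comm]
  have := h s hs le_rfl
  linarith

/-- along an increasing chain of directed index sets the operators `Q` have small jumps -/
theorem exists_small_jump (S : RetractionalSkeleton K Γ) (T T' : ℕ → Set Γ)
    (hne : ∀ k, (T k).Nonempty) (hdir : ∀ k, DirectedOn (· ≤ ·) (T k))
    (hdir' : ∀ k, DirectedOn (· ≤ ·) (T' k)) (h1 : ∀ k, T k ⊆ T' k) (h2 : ∀ k, T' k ⊆ T (k + 1))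
    (f : C(K, ℝ)) {ε : ℝ} (hε : 0 < ε) : ∃ k, dist (S.Q (T' k) f) (S.Q (T k) f) ≤ ε := by
  have hmono : Monotone T := monotone_nat_of_le_succ fun k => (h1 k).trans (h2 k)
  have hUne : (⋃ k, T k).Nonempty := by
    obtain ⟨s, hs⟩ := hne 0
    exact ⟨s, Set.mem_iUnion.mpr ⟨0, hs⟩⟩
  obtain ⟨s, hs, h⟩ := S.cauchy_P (⋃ k, T k) hUne f (ε := ε / 4) (by positivity)
  obtain ⟨k, hk⟩ := Set.mem_iUnion.mp hs
  refine ⟨k, ?_⟩
  have e1 : dist (S.Q (T k) f) (S.P s f) ≤ ε / 2 := by
    obtain ⟨t, ht, h3⟩ := S.Q_spec (T k) (hne k) (hdir k) f (ε := ε / 4) (by positivity)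
    obtain ⟨q, hq, hsq, htq⟩ := hdir k s hk t ht
    have a1 := h3 q hq htq
    have a2 := h q (Set.mem_iUnion.mpr ⟨k, hq⟩) hsq
    have a3 := dist_triangle_left (S.Q (T k) f) (S.P s f) (S.P q f)
    linarith
  have e2 : dist (S.Q (T' k) f) (S.P s f) ≤ ε / 2 := by
    obtain ⟨t, ht, h3⟩ := S.Q_spec (T' k) ((hne k).mono (h1 k)) (hdir' k) f (ε := ε / 4)
      (by positivity)
    obtain ⟨q, hq, hsq, htq⟩ := hdir' k s (h1 k hk) t ht
    have a1 := h3 q hq htq
    have a2 := h q (Set.mem_iUnion.mpr ⟨k + 1, h2 k hq⟩) hsq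
    have a3 := dist_triangle_left (S.Q (T' k) f) (S.P s f) (S.P q f)
    linarith
  have e3 := dist_triangle_right (S.Q (T' k) f) (S.Q (T k) f) (S.P s f)
  linarith

/-- the space of functions invariant under `r s` is separable -/
theorem exists_dense_fix (S : RetractionalSkeleton K Γ) (s : Γ) :
    ∃ h : ℕ → C(K, ℝ), (∀ k, S.P s (h k) = h k) ∧
      ∀ f : C(K, ℝ), S.P s f = f → f ∈ closure (Set.range h) := by
  let Ks : Set K := Set.range (S.r s)
  have : CompactSpace Ks := isCompact_iff_compactSpace.mp (S.isClosed_range s).isCompact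
  have : TopologicalSpace.MetrizableSpace Ks := S.metrizable s
  let _ : MetricSpace Ks := TopologicalSpace.metrizableSpaceMetric _
  let e : C(K, Ks) := ⟨fun x => ⟨S.r s x, x, rfl⟩, Continuous.subtype_mk (S.continuous_r s) _⟩
  let g := TopologicalSpace.denseSeq C(Ks, ℝ)
  refine ⟨fun k => (g k).comp e, fun k => ?_, fun f hf => ?_⟩
  · ext x
    simp only [P_apply, ContinuousMap.comp_apply]
    congr 1
    exact Subtype.ext (S.apply_idem s x)
  · let f' : C(Ks, ℝ) := ⟨fun w => f w, f.continuous.comp continuous_subtype_val⟩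
    rw [Metric.mem_closure_range_iff]
    intro ε hε
    obtain ⟨k, hk⟩ := (TopologicalSpace.denseRange_denseSeq C(Ks, ℝ)).exists_dist_lt f'
      (half_pos hε)
    refine ⟨k, ?_⟩
    have : dist f ((g k).comp e) ≤ ε / 2 := by
      rw [ContinuousMap.dist_le (by positivity)]
      intro x
      have h1 : f x = f' (e x) := by
        conv_lhs => rw [← hf]
        rfl
      rw [h1]
      exact (ContinuousMap.dist_apply_le_dist (e x)).trans hk.le
    linarith

end RetractionalSkeleton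

end Pool.Agent.helper68
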