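import Mathlib
import Pool.Agent.helper68.RSkelProj

/-!
# A canonical subfamily of a retractional skeleton

For every retractional skeleton there is a set of its retractions, cofinal in it, on which the order of
the retractions is isomorphic to a family of countable sets closed under increasing unions, and which is
closed under limits of all increasing sequences of retractions.
-/

set_option autoImplicit false
set_option linter.unusedSectionVars false

open Set Filter Topology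

namespace Pool.Agent.helper68

universe u v w

section gcl

variable {Γ : Type v}

/-- closure of a set under a set-valued binary operation -/
def gcl (g : Γ → Γ → Set Γ) (A : Set Γ) : Set Γ :=
  ⋂₀ {M | A ⊆ M ∧ ∀ x ∈ M, ∀ y ∈ M, g x y ⊆ M}

theorem subset_gcl (g : Γ → Γ → Set Γ) (A : Set Γ) : A ⊆ gcl g A :=
  Set.subset_sInter fun _ hM => hM.1

theorem gcl_closed (g : Γ → Γ → Set Γ) (A : Set Γ) {x y : Γ} (hx : x ∈ gcl g A)
    (hy : y ∈ gcl g A) : g x y ⊆ gcl g A := by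
  apply Set.subset_sInter
  intro M hM
  exact hM.2 x (Set.mem_sInter.mp hx M hM) y (Set.mem_sInter.mp hy M hM)

theorem gcl_min (g : Γ → Γ → Set Γ) {A M : Set Γ} (h1 : A ⊆ M)
    (h2 : ∀ x ∈ M, ∀ y ∈ M, g x y ⊆ M) : gcl g A ⊆ M :=
  Set.sInter_subset_of_mem ⟨h1, h2⟩

theorem gcl_mono (g : Γ → Γ → Set Γ) {A B : Set Γ} (h : A ⊆ B) : gcl g A ⊆ gcl g B :=
  gcl_min g (h.trans (subset_gcl g B)) fun _ hx _ hy => gcl_closed g B hx hy

theorem gcl_subset_of_le {g g' : Γ → Γ → Set Γ} (h : ∀ x y, g x y ⊆ g' x y) (A : Set Γ) :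
    gcl g A ⊆ gcl g' A :=
  gcl_min g (subset_gcl g' A) fun x hx y hy => (h x y).trans (gcl_closed g' A hx hy)

theorem gcl_countable (g : Γ → Γ → Set Γ) (hg : ∀ x y, (g x y).Countable) {A : Set Γ}
    (hA : A.Countable) : (gcl g A).Countable := by
  let F : ℕ → Set Γ := fun n => Nat.rec A (fun _ M => M ∪ ⋃ x ∈ M, ⋃ y ∈ M, g x y) n
  have hF : ∀ n, F (n + 1) = F n ∪ ⋃ x ∈ F n, ⋃ y ∈ F n, g x y := fun n => rfl
  have hmono : Monotone F := monotone_nat_of_le_succ fun n => by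
    rw [hF]
    exact Set.subset_union_left
  have hc : ∀ n, (F n).Countable := by
    intro n
    induction n with
    | zero => exact hA
    | succ n ih =>
      rw [hF]
      exact ih.union (ih.biUnion fun x _ => ih.biUnion fun y _ => hg x y)
  refine (Set.countable_iUnion hc).mono (gcl_min g ?_ ?_)
  · exact Set.subset_iUnion F 0
  · intro x hx y hy z hz
    obtain ⟨n, hn⟩ := Set.mem_iUnion.mp hx
    obtain ⟨m, hm⟩ := Set.mem_iUnion.mp hy
    refine Set.mem_iUnion.mpr ⟨max n m + 1, ?_⟩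
    rw [hF]
    right
    simp only [Set.mem_iUnion]
    exact ⟨x, hmono (le_max_left n m) hn, y, hmono (le_max_right n m) hm, hz⟩

theorem exists_countable_of_mem_gcl (g : Γ → Γ → Set Γ) {A : Set Γ} {x : Γ} (hx : x ∈ gcl g A) :
    ∃ B ⊆ A, B.Countable ∧ x ∈ gcl g B := by
  have : gcl g A ⊆ {x | ∃ B ⊆ A, B.Countable ∧ x ∈ gcl g B} := by
    apply gcl_min
    · intro a ha
      exact ⟨{a}, by simpa using ha, Set.countable_singleton a, subset_gcl g _ rfl⟩
    · rintro x ⟨B, hB, hBc, hxB⟩ y ⟨C, hC, hCc, hyC⟩ z hz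
      refine ⟨B ∪ C, Set.union_subset hB hC, hBc.union hCc, ?_⟩
      exact gcl_closed g _ (gcl_mono g Set.subset_union_left hxB)
        (gcl_mono g Set.subset_union_right hyC) hz
  exact this hx

theorem gcl_iUnion (g : Γ → Γ → Set Γ) (A : ℕ → Set Γ) (hA : Monotone A) :
    gcl g (⋃ n, A n) = ⋃ n, gcl g (A n) := by
  apply Set.Subset.antisymm
  · apply gcl_min
    · exact Set.iUnion_mono fun n => subset_gcl g (A n)
    · intro x hx y hy
      obtain ⟨n, hn⟩ := Set.mem_iUnion.mp hx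
      obtain ⟨m, hm⟩ := Set.mem_iUnion.mp hy
      have h1 := gcl_mono g (hA (le_max_left n m)) hn
      have h2 := gcl_mono g (hA (le_max_right n m)) hm
      exact (gcl_closed g _ h1 h2).trans (Set.subset_iUnion (fun n => gcl g (A n)) _)
  · exact Set.iUnion_subset fun n => gcl_mono g (Set.subset_iUnion A n)

end gcl

/-- an infinite subset of a well-ordered type contains an increasing sequence -/
theorem exists_increasing_of_infinite {Γ : Type v} (J : Set Γ) (hJ : J.Infinite) :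
    ∃ b : ℕ → Γ, (∀ n, b n ∈ J) ∧ ∀ m n, m < n → WellOrderingRel (b m) (b n) := by
  let e := hJ.natEmbedding
  obtain ⟨g, hg | hg⟩ := exists_increasing_or_nonincreasing_subseq (WellOrderingRel (α := Γ))
    (fun n => (e n : Γ))
  · exact ⟨fun n => e (g n), fun n => (e (g n)).2, hg⟩
  · exfalso
    obtain ⟨n, hn⟩ := WellFounded.not_rel_apply_succ (r := WellOrderingRel (α := Γ))
      (fun n => (e (g n) : Γ))
    have h1 := hg n (n + 1) (Nat.lt_succ_self n)
    rcases trichotomous_of (WellOrderingRel (α := Γ)) (e (g n) : Γ) (e (g (n + 1)) : Γ) with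
      h | h | h
    · exact h1 h
    · have := g.injective (e.injective (Subtype.ext h))
      omega
    · exact hn h

namespace RetractionalSkeleton

variable {K : Type u} [TopologicalSpace K] [CompactSpace K] [T2Space K]
  {Γ : Type v} [PartialOrder Γ]

/-- closure under the choice `u` of upper bounds, containing the base point `x₀` -/
def cl (u : Γ → Γ → Γ) (x₀ : Γ) (A : Set Γ) : Set Γ := gcl (fun x y => {u x y}) (insert x₀ A)

section cl

variable (u : Γ → Γ → Γ) (x₀ : Γ)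

theorem cl_mono {A B : Set Γ} (h : A ⊆ B) : cl u x₀ A ⊆ cl u x₀ B :=
  gcl_mono _ (Set.insert_subset_insert h)

theorem cl_nonempty (A : Set Γ) : (cl u x₀ A).Nonempty :=
  ⟨x₀, subset_gcl _ _ (Set.mem_insert _ _)⟩

theorem subset_cl (A : Set Γ) : A ⊆ cl u x₀ A :=
  (Set.subset_insert _ _).trans (subset_gcl _ _)

theorem cl_directed (hu : ∀ x y, x ≤ u x y ∧ y ≤ u x y) (A : Set Γ) :
    DirectedOn (· ≤ ·) (cl u x₀ A) := fun x hx y hy =>
  ⟨u x y, gcl_closed _ _ hx hy rfl, (hu x y).1, (hu x y).2⟩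

end cl

/-- the recursively defined thinned-out well-ordered sequence of indices -/
def inD (S : RetractionalSkeleton K Γ) (u : Γ → Γ → Γ) (x₀ : Γ) : Γ → Prop :=
  IsWellFounded.fix (WellOrderingRel (α := Γ)) fun x IH =>
    ¬ ∀ f, S.P x f = f → f ∈ S.CM (cl u x₀ {y | ∃ h : WellOrderingRel y x, IH y h})

/-- closure of the predecessors of `x` -/
def TT (S : RetractionalSkeleton K Γ) (u : Γ → Γ → Γ) (x₀ : Γ) (x : Γ) : Set Γ :=
  cl u x₀ {y | WellOrderingRel y x ∧ S.inD u x₀ y}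

/-- closure of the predecessors of `x` together with `x` -/
def TT' (S : RetractionalSkeleton K Γ) (u : Γ → Γ → Γ) (x₀ : Γ) (x : Γ) : Set Γ :=
  cl u x₀ {y | (WellOrderingRel y x ∨ y = x) ∧ S.inD u x₀ y}

theorem inD_iff (S : RetractionalSkeleton K Γ) (u : Γ → Γ → Γ) (x₀ : Γ) (x : Γ) :
    S.inD u x₀ x ↔ ¬ ∀ f, S.P x f = f → f ∈ S.CM (S.TT u x₀ x) := by
  unfold TT
  have h := IsWellFounded.fix_eq (WellOrderingRel (α := Γ)) (fun (x : Γ)
    (IH : ∀ y : Γ, WellOrderingRel y x → Prop) =>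
    ¬ ∀ f, S.P x f = f → f ∈ S.CM (cl u x₀ {y | ∃ h : WellOrderingRel y x, IH y h})) x
  have h2 : S.inD u x₀ x = ¬ ∀ f, S.P x f = f →
      f ∈ S.CM (cl u x₀ {y | ∃ _ : WellOrderingRel y x, S.inD u x₀ y}) := h
  have h3 : {y | ∃ _ : WellOrderingRel y x, S.inD u x₀ y} =
      {y | WellOrderingRel y x ∧ S.inD u x₀ y} := by
    ext y
    simp only [Set.mem_ofPred_eq, exists_prop]
  rw [h2, h3]

theorem TT_subset_TT' (S : RetractionalSkeleton K Γ) (u : Γ → Γ → Γ) (x₀ : Γ) (x : Γ) :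
    S.TT u x₀ x ⊆ S.TT' u x₀ x :=
  cl_mono u x₀ fun _ hy => ⟨Or.inl hy.1, hy.2⟩

theorem TT'_subset_TT (S : RetractionalSkeleton K Γ) (u : Γ → Γ → Γ) (x₀ : Γ) {x y : Γ}
    (h : WellOrderingRel x y) : S.TT' u x₀ x ⊆ S.TT u x₀ y := by
  apply cl_mono u x₀
  rintro z ⟨hz | rfl, hz2⟩
  · exact ⟨_root_.trans hz h, hz2⟩
  · exact ⟨h, hz2⟩

/-- the indices at which the functions invariant under `r x` jump -/
def supp (S : RetractionalSkeleton K Γ) (u : Γ → Γ → Γ) (x₀ : Γ) (x : Γ) : Set Γ :=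
  {y | S.inD u x₀ y ∧ ∃ h, S.P x h = h ∧ S.Q (S.TT' u x₀ y) h ≠ S.Q (S.TT u x₀ y) h}

theorem jumps_finite (S : RetractionalSkeleton K Γ) (u : Γ → Γ → Γ) (x₀ : Γ)
    (hu : ∀ x y, x ≤ u x y ∧ y ≤ u x y) (h : C(K, ℝ)) {ε : ℝ} (hε : 0 < ε) :
    {y | ε < dist (S.Q (S.TT' u x₀ y) h) (S.Q (S.TT u x₀ y) h)}.Finite := by
  by_contra hinf
  obtain ⟨b, hb1, hb2⟩ := exists_increasing_of_infinite _ hinf
  obtain ⟨k, hk⟩ := S.exists_small_jump (fun k => S.TT u x₀ (b k)) (fun k => S.TT' u x₀ (b k))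
    (fun k => cl_nonempty u x₀ _) (fun k => cl_directed u x₀ hu _) (fun k => cl_directed u x₀ hu _)
    (fun k => S.TT_subset_TT' u x₀ (b k)) (fun k => S.TT'_subset_TT u x₀ (hb2 k (k + 1) (by omega)))
    h hε
  have := hb1 k
  simp only [Set.mem_ofPred_eq] at this
  linarith

theorem jumps_countable (S : RetractionalSkeleton K Γ) (u : Γ → Γ → Γ) (x₀ : Γ)
    (hu : ∀ x y, x ≤ u x y ∧ y ≤ u x y) (h : C(K, ℝ)) :
    {y | S.Q (S.TT' u x₀ y) h ≠ S.Q (S.TT u x₀ y) h}.Countable := by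
  have : {y | S.Q (S.TT' u x₀ y) h ≠ S.Q (S.TT u x₀ y) h} ⊆
      ⋃ n : ℕ, {y | 1 / ((n : ℝ) + 1) < dist (S.Q (S.TT' u x₀ y) h) (S.Q (S.TT u x₀ y) h)} := by
    intro y hy
    have hpos : 0 < dist (S.Q (S.TT' u x₀ y) h) (S.Q (S.TT u x₀ y) h) := dist_pos.mpr hy
    obtain ⟨n, hn⟩ := exists_nat_one_div_lt hpos
    exact Set.mem_iUnion.mpr ⟨n, hn⟩
  exact (Set.countable_iUnion fun n =>
    (S.jumps_finite u x₀ hu h Nat.one_div_pos_of_nat).countable).mono this

theorem supp_countable (S : RetractionalSkeleton K Γ) (u : Γ → Γ → Γ) (x₀ : Γ)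
    (hu : ∀ x y, x ≤ u x y ∧ y ≤ u x y) (x : Γ) : (S.supp u x₀ x).Countable := by
  obtain ⟨h, h1, h2⟩ := S.exists_dense_fix x
  refine (Set.countable_iUnion fun k => S.jumps_countable u x₀ hu (h k)).mono ?_
  rintro y ⟨-, f, hf, hne⟩
  by_contra hcon
  simp only [Set.mem_iUnion, Set.mem_ofPred_eq, not_exists, not_not] at hcon
  apply hne
  have d1 := S.Q_dist (S.TT' u x₀ y) (cl_nonempty u x₀ _) (cl_directed u x₀ hu _)
  have d2 := S.Q_dist (S.TT u x₀ y) (cl_nonempty u x₀ _) (cl_directed u x₀ hu _)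
  apply eq_of_forall_dist_le
  intro ε hε
  obtain ⟨k, hk⟩ := (Metric.mem_closure_range_iff.mp (h2 f hf)) (ε / 2) (half_pos hε)
  have e1 := d1 f (h k)
  have e2 := d2 f (h k)
  have e3 := dist_triangle_right (S.Q (S.TT' u x₀ y) f) (S.Q (S.TT u x₀ y) f)
    (S.Q (S.TT' u x₀ y) (h k))
  have e4 : dist (S.Q (S.TT u x₀ y) f) (S.Q (S.TT' u x₀ y) (h k)) ≤ dist f (h k) := by
    rw [hcon k]
    exact e2
  linarith

/-- Every function invariant under some `r x` is generated by the thinned-out sequence. -/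
theorem mem_CM_cl_inD (S : RetractionalSkeleton K Γ) (u : Γ → Γ → Γ) (x₀ : Γ)
    (x : Γ) (f : C(K, ℝ)) (hf : S.P x f = f) : f ∈ S.CM (cl u x₀ {y | S.inD u x₀ y}) := by
  by_cases hx : S.inD u x₀ x
  · exact S.mem_CM_of_fix (subset_cl u x₀ _ hx) hf
  · rw [inD_iff, not_not] at hx
    exact S.CM_mono (cl_mono u x₀ fun y hy => hy.2) (hx f hf)

theorem exists_gen (S : RetractionalSkeleton K Γ) (u : Γ → Γ → Γ) (x₀ : Γ)
    (x : Γ) : ∃ A : Set Γ, A ⊆ {y | S.inD u x₀ y} ∧ A.Countable ∧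
      ∀ f, S.P x f = f → f ∈ S.CM (cl u x₀ A) := by
  obtain ⟨h, h1, h2⟩ := S.exists_dense_fix x
  have key : ∀ k, ∃ A : Set Γ, A ⊆ {y | S.inD u x₀ y} ∧ A.Countable ∧ h k ∈ S.CM (cl u x₀ A) := by
    intro k
    have hk := S.mem_CM_cl_inD u x₀ x (h k) (h1 k)
    obtain ⟨g, hg1, hg2⟩ := mem_closure_iff_seq_limit.mp hk
    choose s hs hs2 using hg1
    have hB : ∀ j, ∃ B ⊆ insert x₀ {y | S.inD u x₀ y}, B.Countable ∧
        s j ∈ gcl (fun x y => {u x y}) B := fun j => exists_countable_of_mem_gcl _ (hs j)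
    choose B hB1 hB2 hB3 using hB
    refine ⟨(⋃ j, B j) ∩ {y | S.inD u x₀ y}, Set.inter_subset_right,
      (Set.countable_iUnion hB2).mono Set.inter_subset_left, ?_⟩
    apply mem_closure_iff_seq_limit.mpr
    refine ⟨g, fun j => ⟨s j, ?_, hs2 j⟩, hg2⟩
    refine gcl_mono _ ?_ (hB3 j)
    intro b hb
    rcases hB1 j hb with h | h
    · exact Or.inl h
    · exact Or.inr ⟨Set.mem_iUnion.mpr ⟨j, hb⟩, h⟩
  choose A hA1 hA2 hA3 using key
  refine ⟨⋃ k, A k, Set.iUnion_subset hA1, Set.countable_iUnion hA2, fun f hf => ?_⟩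
  have hsub : Set.range h ⊆ S.CM (cl u x₀ (⋃ k, A k)) := by
    rintro _ ⟨k, rfl⟩
    exact S.CM_mono (cl_mono u x₀ (Set.subset_iUnion A k)) (hA3 k)
  exact closure_minimal hsub (S.isClosed_CM _) (h2 f hf)

/-- a countable set of generators for the functions invariant under `r x` -/
noncomputable def gen (S : RetractionalSkeleton K Γ) (u : Γ → Γ → Γ) (x₀ : Γ) (x : Γ) : Set Γ :=
  (S.exists_gen u x₀ x).choose

theorem gen_spec (S : RetractionalSkeleton K Γ) (u : Γ → Γ → Γ) (x₀ : Γ) (x : Γ) :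
    S.gen u x₀ x ⊆ {y | S.inD u x₀ y} ∧ (S.gen u x₀ x).Countable ∧
      ∀ f, S.P x f = f → f ∈ S.CM (cl u x₀ (S.gen u x₀ x)) :=
  (S.exists_gen u x₀ x).choose_spec

/-- the full hull -/
noncomputable def hull (S : RetractionalSkeleton K Γ) (u : Γ → Γ → Γ) (x₀ : Γ) (A : Set Γ) : Set Γ :=
  gcl (fun x y => {u x y} ∪ S.supp u x₀ x ∪ S.gen u x₀ x) (insert x₀ A)

section hull

variable (S : RetractionalSkeleton K Γ) (u : Γ → Γ → Γ) (x₀ : Γ)

theorem hull_mono {A B : Set Γ} (h : A ⊆ B) : S.hull u x₀ A ⊆ S.hull u x₀ B :=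
  gcl_mono _ (Set.insert_subset_insert h)

theorem subset_hull (A : Set Γ) : A ⊆ S.hull u x₀ A :=
  (Set.subset_insert _ _).trans (subset_gcl _ _)

theorem base_mem_hull (A : Set Γ) : x₀ ∈ S.hull u x₀ A :=
  subset_gcl _ _ (Set.mem_insert _ _)

theorem hull_countable (hu : ∀ x y, x ≤ u x y ∧ y ≤ u x y) {A : Set Γ} (hA : A.Countable) :
    (S.hull u x₀ A).Countable := by
  apply gcl_countable _ _ (hA.insert x₀)
  intro x y
  exact ((Set.countable_singleton _).union (S.supp_countable u x₀ hu x)).union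
    (S.gen_spec u x₀ x).2.1

theorem u_mem_hull {A : Set Γ} {x y : Γ} (hx : x ∈ S.hull u x₀ A) (hy : y ∈ S.hull u x₀ A) :
    u x y ∈ S.hull u x₀ A :=
  gcl_closed _ _ hx hy (Or.inl (Or.inl rfl))

theorem supp_subset_hull {A : Set Γ} {x : Γ} (hx : x ∈ S.hull u x₀ A) :
    S.supp u x₀ x ⊆ S.hull u x₀ A := fun _ hz =>
  gcl_closed _ _ hx hx (Or.inl (Or.inr hz))

theorem gen_subset_hull {A : Set Γ} {x : Γ} (hx : x ∈ S.hull u x₀ A) :
    S.gen u x₀ x ⊆ S.hull u x₀ A := fun _ hz =>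
  gcl_closed _ _ hx hx (Or.inr hz)

theorem hull_directed (hu : ∀ x y, x ≤ u x y ∧ y ≤ u x y) (A : Set Γ) :
    DirectedOn (· ≤ ·) (S.hull u x₀ A) := fun x hx y hy =>
  ⟨u x y, S.u_mem_hull u x₀ hx hy, (hu x y).1, (hu x y).2⟩

theorem cl_subset_hull (A : Set Γ) : cl u x₀ A ⊆ S.hull u x₀ A :=
  gcl_subset_of_le (fun _ _ _ hz => Or.inl (Or.inl hz)) _

/-- the hull of a subset of a hull is contained in that hull -/
theorem hull_subset_hull {A B : Set Γ} (h : A ⊆ S.hull u x₀ B) :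
    S.hull u x₀ A ⊆ S.hull u x₀ B := by
  apply gcl_min
  · exact Set.insert_subset (S.base_mem_hull u x₀ B) h
  · intro x hx y hy
    exact gcl_closed _ _ hx hy

theorem hull_iUnion (A : ℕ → Set Γ) (hA : Monotone A) :
    S.hull u x₀ (⋃ n, A n) = ⋃ n, S.hull u x₀ (A n) := by
  unfold hull
  rw [Set.insert_iUnion]
  exact gcl_iUnion _ _ fun m n h => Set.insert_subset_insert (hA h)

end hull

/-- a countable directed set of indices has a supremum, attained along an increasing sequence -/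
theorem exists_sup_countable (S : RetractionalSkeleton K Γ) (M : Set Γ) (hM : M.Countable)
    (hne : M.Nonempty) (hdir : DirectedOn (· ≤ ·) M) :
    ∃ t, IsLUB M t ∧ ∃ a : ℕ → Γ, Monotone a ∧ (∀ n, a n ∈ M) ∧ IsLUB (Set.range a) t ∧
      ∀ x ∈ M, ∃ n, x ≤ a n := by
  obtain ⟨e, he⟩ := hM.exists_eq_range hne
  have heM : ∀ n, e n ∈ M := fun n => by rw [he]; exact ⟨n, rfl⟩
  have hd : ∀ x y : M, ∃ z : M, (x : Γ) ≤ z ∧ (y : Γ) ≤ z := by
    intro x y
    obtain ⟨z, hz, h1, h2⟩ := hdir x x.2 y y.2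
    exact ⟨⟨z, hz⟩, h1, h2⟩
  choose q hq1 hq2 using hd
  let a : ℕ → M := fun n => Nat.rec ⟨e 0, heM 0⟩ (fun k b => q b ⟨e (k + 1), heM (k + 1)⟩) n
  have ha : ∀ n, a (n + 1) = q (a n) ⟨e (n + 1), heM (n + 1)⟩ := fun n => rfl
  have hmono : Monotone (fun n : ℕ => (a n).1) := by
    apply monotone_nat_of_le_succ
    intro n
    exact hq1 (a n) _
  have hea : ∀ n, e n ≤ (a n).1 := by
    intro n
    cases n with
    | zero => exact le_rfl
    | succ n =>
      rw [ha]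
      exact hq2 (a n) ⟨e (n + 1), heM (n + 1)⟩
  obtain ⟨t, ht⟩ := S.sigmaComplete _ hmono
  have hcof : ∀ x ∈ M, ∃ n, x ≤ (a n).1 := by
    intro x hx
    rw [he] at hx
    obtain ⟨n, rfl⟩ := hx
    exact ⟨n, hea n⟩
  refine ⟨t, ⟨?_, ?_⟩, fun n : ℕ => (a n).1, hmono, fun n => (a n).2, ht, hcof⟩
  · intro x hx
    obtain ⟨n, hn⟩ := hcof x hx
    exact hn.trans (ht.1 ⟨n, rfl⟩)
  · intro b hb
    apply ht.2
    rintro _ ⟨n, rfl⟩
    exact hb (a n).2

end RetractionalSkeleton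

end Pool.Agent.helper68
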