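import Mathlib
import Pool.Agent.helper68.RSkelChain

/-!
# The canonical skeleton

The family of retractions found in `RSkelChain` is itself a retractional skeleton.
-/

set_option autoImplicit false
set_option linter.unusedSectionVars false

open Set Filter Topology

namespace Pool.Agent.helper68

universe u v w

namespace RetractionalSkeleton

variable {K : Type u} [TopologicalSpace K] [CompactSpace K] [T2Space K]
  {Γ : Type v} [PartialOrder Γ]

theorem r_eq_of_P_eq (S : RetractionalSkeleton K Γ) {s t : Γ} (h : ∀ f, S.P s f = S.P t f) :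
    S.r s = S.r t := by
  funext x
  by_contra hne
  obtain ⟨g, hg0, hg1, -⟩ := exists_continuous_zero_one_of_isClosed
    (isClosed_singleton (x := S.r s x)) (isClosed_singleton (x := S.r t x))
    (by simpa using hne)
  have e0 : g (S.r s x) = 0 := hg0 rfl
  have e1 : g (S.r t x) = 1 := hg1 rfl
  have := congrArg (fun F : C(K, ℝ) => F x) (h g)
  simp only [P_apply] at this
  rw [e0, e1] at this
  exact zero_ne_one this

/-- elements of `CM M` are invariant under `r t` when `t` bounds `M` -/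
theorem P_eq_of_mem_CM (S : RetractionalSkeleton K Γ) {M : Set Γ} {t : Γ} (ht : ∀ s ∈ M, s ≤ t)
    {f : C(K, ℝ)} (hf : f ∈ S.CM M) : S.P t f = f := by
  apply eq_of_forall_dist_le
  intro ε hε
  obtain ⟨g, ⟨s, hs, hg⟩, hd⟩ := Metric.mem_closure_iff.mp hf (ε / 2) (half_pos hε)
  have e1 := S.P_fix_mono (ht s hs) hg
  have e2 := S.P_dist t f g
  rw [e1] at e2
  have e3 := dist_triangle_right (S.P t f) f g
  linarith

/-- the index family: countable sets `A` of thinned-out indices which contain all the thinned-out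
indices in their hull -/
def Cfam (S : RetractionalSkeleton K Γ) (u : Γ → Γ → Γ) (x₀ : Γ) : Type v :=
  {A : Set Γ // A ⊆ {y | S.inD u x₀ y} ∧ A.Countable ∧
    S.hull u x₀ A ∩ {y | S.inD u x₀ y} ⊆ A}

instance (S : RetractionalSkeleton K Γ) (u : Γ → Γ → Γ) (x₀ : Γ) :
    PartialOrder (S.Cfam u x₀) := inferInstanceAs (PartialOrder (Subtype _))

section canon

variable (S : RetractionalSkeleton K Γ) (u : Γ → Γ → Γ) (x₀ : Γ)
  (hu : ∀ x y, x ≤ u x y ∧ y ≤ u x y)

theorem Cfam_le_iff {A B : S.Cfam u x₀} : A ≤ B ↔ A.1 ⊆ B.1 := Iff.rfl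

include hu in
theorem hull_inter_spec {B : Set Γ} (hB : B.Countable) :
    (S.hull u x₀ B ∩ {y | S.inD u x₀ y}) ⊆ {y | S.inD u x₀ y} ∧
    (S.hull u x₀ B ∩ {y | S.inD u x₀ y}).Countable ∧
    S.hull u x₀ (S.hull u x₀ B ∩ {y | S.inD u x₀ y}) ∩ {y | S.inD u x₀ y} ⊆
      S.hull u x₀ B ∩ {y | S.inD u x₀ y} := by
  refine ⟨Set.inter_subset_right, (S.hull_countable u x₀ hu hB).mono Set.inter_subset_left, ?_⟩
  apply Set.inter_subset_inter_left
  exact S.hull_subset_hull u x₀ Set.inter_subset_left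

/-- the trace of the hull of a countable set -/
def trace {B : Set Γ} (hB : B.Countable) : S.Cfam u x₀ :=
  ⟨S.hull u x₀ B ∩ {y | S.inD u x₀ y}, S.hull_inter_spec u x₀ hu hB⟩

include hu in
theorem exists_sup_hull {B : Set Γ} (hB : B.Countable) :
    ∃ t, IsLUB (S.hull u x₀ B) t ∧ ∃ a : ℕ → Γ, Monotone a ∧ (∀ n, a n ∈ S.hull u x₀ B) ∧
      IsLUB (Set.range a) t ∧ ∀ x ∈ S.hull u x₀ B, ∃ n, x ≤ a n :=
  S.exists_sup_countable _ (S.hull_countable u x₀ hu hB) ⟨x₀, S.base_mem_hull u x₀ B⟩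
    (S.hull_directed u x₀ hu B)

/-- the supremum of the hull of `A` -/
noncomputable def sg (A : S.Cfam u x₀) : Γ :=
  (S.exists_sup_hull u x₀ hu A.2.2.1).choose

theorem sg_isLUB (A : S.Cfam u x₀) : IsLUB (S.hull u x₀ A.1) (S.sg u x₀ hu A) :=
  (S.exists_sup_hull u x₀ hu A.2.2.1).choose_spec.1

theorem sg_mono {A B : S.Cfam u x₀} (h : A ≤ B) : S.sg u x₀ hu A ≤ S.sg u x₀ hu B :=
  (S.sg_isLUB u x₀ hu A).mono (S.sg_isLUB u x₀ hu B) (S.hull_mono u x₀ h)

theorem sg_sup (A : ℕ → S.Cfam u x₀) (hA : Monotone A) (B : S.Cfam u x₀)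
    (hB : B.1 = ⋃ n, (A n).1) : IsLUB (Set.range fun n => S.sg u x₀ hu (A n)) (S.sg u x₀ hu B) := by
  constructor
  · rintro _ ⟨n, rfl⟩
    apply S.sg_mono u x₀ hu
    rw [Cfam_le_iff, hB]
    exact Set.subset_iUnion (fun n => (A n).1) n
  · intro b hb
    apply (S.sg_isLUB u x₀ hu B).2
    rw [hB, S.hull_iUnion u x₀ _ (fun m n h => hA h)]
    intro x hx
    obtain ⟨n, hn⟩ := Set.mem_iUnion.mp hx
    exact ((S.sg_isLUB u x₀ hu (A n)).1 hn).trans (hb ⟨n, rfl⟩)

/-- the order of the index family can be read off from the invariant functions -/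
theorem le_of_fix {A B : S.Cfam u x₀}
    (h : ∀ f, S.P (S.sg u x₀ hu A) f = f → S.P (S.sg u x₀ hu B) f = f) : A ≤ B := by
  rw [Cfam_le_iff]
  intro x hx
  have hxD : S.inD u x₀ x := A.2.1 hx
  have hxD' := (S.inD_iff u x₀ x).mp hxD
  push Not at hxD'
  obtain ⟨f, hf, hfT⟩ := hxD'
  have hxA : x ≤ S.sg u x₀ hu A := (S.sg_isLUB u x₀ hu A).1 (S.subset_hull u x₀ A.1 hx)
  have hfB := h f (S.P_fix_mono hxA hf)
  obtain ⟨t, ht, a, ha1, ha2, ha3, ha4⟩ := S.exists_sup_hull u x₀ hu B.2.2.1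
  have htB : t = S.sg u x₀ hu B := ht.unique (S.sg_isLUB u x₀ hu B)
  have hlim := S.tendsto_P a t ha1 ha3 f
  rw [htB, hfB] at hlim
  have hT' : S.Q (S.TT' u x₀ x) f = f := by
    apply S.Q_eq_of_mem _ (cl_nonempty u x₀ _) (cl_directed u x₀ hu _)
    have hmem : x ∈ {y | (WellOrderingRel y x ∨ y = x) ∧ S.inD u x₀ y} := ⟨Or.inr rfl, hxD⟩
    exact S.mem_CM_of_fix (subset_cl u x₀ _ hmem) hf
  have hT : S.Q (S.TT u x₀ x) f ≠ f := by
    intro heq
    apply hfT
    rw [← heq]
    exact S.Q_mem_CM _ (cl_nonempty u x₀ _) (cl_directed u x₀ hu _) f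
  have hpos : 0 < dist f (S.Q (S.TT u x₀ x) f) := dist_pos.mpr (Ne.symm hT)
  obtain ⟨n, hn⟩ := Metric.tendsto_atTop.mp hlim _ (half_pos hpos)
  have hn := hn n le_rfl
  have hsupp : x ∈ S.supp u x₀ (a n) := by
    refine ⟨hxD, S.P (a n) f, S.P_P_ge le_rfl f, ?_⟩
    intro heq
    have e1 := S.Q_dist (S.TT' u x₀ x) (cl_nonempty u x₀ _) (cl_directed u x₀ hu _) f
      (S.P (a n) f)
    have e2 := S.Q_dist (S.TT u x₀ x) (cl_nonempty u x₀ _) (cl_directed u x₀ hu _) f
      (S.P (a n) f)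
    rw [hT', heq] at e1
    have e3 := dist_triangle_right f (S.Q (S.TT u x₀ x) f) (S.Q (S.TT u x₀ x) (S.P (a n) f))
    rw [dist_comm f (S.P (a n) f)] at e1 e2
    linarith
  exact B.2.2.2 ⟨S.supp_subset_hull u x₀ (ha2 n) hsupp, hxD⟩

/-- the retraction attached to the hull of a countable set `B` is the one of its trace -/
theorem r_sup_hull {B : Set Γ} (hB : B.Countable) {t : Γ} (ht : IsLUB (S.hull u x₀ B) t) :
    S.r t = S.r (S.sg u x₀ hu (S.trace u x₀ hu hB)) := by
  set A := S.trace u x₀ hu hB with hAdef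
  have hA : A.1 = S.hull u x₀ B ∩ {y | S.inD u x₀ y} := rfl
  have hle : S.sg u x₀ hu A ≤ t := by
    refine (S.sg_isLUB u x₀ hu A).mono ht ?_
    apply S.hull_subset_hull u x₀
    rw [hA]
    exact Set.inter_subset_left
  have hCM : S.CM (S.hull u x₀ B) ⊆ S.CM (S.hull u x₀ A.1) := by
    apply closure_minimal _ (S.isClosed_CM _)
    rintro g ⟨s, hs, hg⟩
    have h1 := (S.gen_spec u x₀ s).2.2 g hg
    apply S.CM_mono _ h1
    refine (cl_mono u x₀ ?_).trans (S.cl_subset_hull u x₀ A.1)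
    rw [hA]
    exact Set.subset_inter (S.gen_subset_hull u x₀ hs) (S.gen_spec u x₀ s).1
  apply S.r_eq_of_P_eq
  intro f
  have hmem : S.P t f ∈ S.CM (S.hull u x₀ B) := by
    obtain ⟨t', ht', a, ha1, ha2, ha3, -⟩ := S.exists_sup_hull u x₀ hu hB
    have : t' = t := ht'.unique ht
    subst this
    apply mem_closure_of_tendsto (S.tendsto_P a t' ha1 ha3 f)
    filter_upwards with n
    exact ⟨a n, ha2 n, S.P_P_ge le_rfl f⟩
  have h2 := S.P_eq_of_mem_CM (fun s hs => (S.sg_isLUB u x₀ hu A).1 hs) (hCM hmem)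
  rw [← h2, S.P_P_le hle]

theorem exists_ge_mem_range (s : Γ) : ∃ t, s ≤ t ∧
    S.r t = S.r (S.sg u x₀ hu (S.trace u x₀ hu (Set.countable_singleton s))) := by
  obtain ⟨t, ht, -⟩ := S.exists_sup_hull u x₀ hu (Set.countable_singleton s)
  exact ⟨t, ht.1 (S.subset_hull u x₀ _ rfl), S.r_sup_hull u x₀ hu _ ht⟩

/-- increasing sequences in the index family have a supremum, namely their union -/
theorem iUnion_mem (A : ℕ → S.Cfam u x₀) (hA : Monotone A) :
    (⋃ n, (A n).1) ⊆ {y | S.inD u x₀ y} ∧ (⋃ n, (A n).1).Countable ∧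
    S.hull u x₀ (⋃ n, (A n).1) ∩ {y | S.inD u x₀ y} ⊆ ⋃ n, (A n).1 := by
  refine ⟨Set.iUnion_subset fun n => (A n).2.1, Set.countable_iUnion fun n => (A n).2.2.1, ?_⟩
  rw [S.hull_iUnion u x₀ _ (fun m n h => hA h), Set.iUnion_inter]
  exact Set.iUnion_mono fun n => (A n).2.2.2

theorem iUnion_isLUB (A : ℕ → S.Cfam u x₀) (hA : Monotone A) :
    IsLUB (Set.range A) (⟨⋃ n, (A n).1, S.iUnion_mem u x₀ A hA⟩ : S.Cfam u x₀) := by
  constructor
  · rintro _ ⟨n, rfl⟩
    exact Set.subset_iUnion (fun n => (A n).1) n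
  · intro B hB
    apply Set.iUnion_subset
    intro n
    exact hB ⟨n, rfl⟩

/-- The canonical skeleton. -/
noncomputable def canon : RetractionalSkeleton K (S.Cfam u x₀) where
  r A := S.r (S.sg u x₀ hu A)
  nonempty := ⟨S.trace u x₀ hu Set.countable_empty⟩
  directed := by
    intro A B
    refine ⟨S.trace u x₀ hu (A.2.2.1.union B.2.2.1), ?_, ?_⟩
    · exact Set.subset_inter (Set.subset_union_left.trans (S.subset_hull u x₀ _)) A.2.1
    · exact Set.subset_inter (Set.subset_union_right.trans (S.subset_hull u x₀ _)) B.2.1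
  sigmaComplete := fun A hA => ⟨_, S.iUnion_isLUB u x₀ A hA⟩
  continuous_r A := S.continuous_r _
  idem A := S.idem _
  metrizable A := S.metrizable _
  comp_right A B h := S.comp_right _ _ (S.sg_mono u x₀ hu h)
  comp_left A B h := S.comp_left _ _ (S.sg_mono u x₀ hu h)
  tendsto_sup := by
    intro A B hA hB x
    apply S.tendsto_sup' _ _ (fun m n h => S.sg_mono u x₀ hu (hA.monotone h))
    apply S.sg_sup u x₀ hu A hA.monotone
    rw [hB.unique (S.iUnion_isLUB u x₀ A hA.monotone)]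
  tendsto_id := by
    intro x
    rw [tendsto_nhds]
    intro U hU hxU
    obtain ⟨f, hf0, hf1, -⟩ := exists_continuous_zero_one_of_isClosed
      (isClosed_singleton (x := x)) hU.isClosed_compl (by
        rw [Set.disjoint_left]
        intro y hy hy'
        rw [Set.mem_singleton_iff.mp hy] at hy'
        exact hy' hxU)
    obtain ⟨s, hs⟩ := S.exists_factor_real f
    obtain ⟨t, hst, ht⟩ := S.exists_ge_mem_range u x₀ hu s
    filter_upwards [eventually_ge_atTop (S.trace u x₀ hu (Set.countable_singleton s))] with A hA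
    have hPs : S.P s f = f := by
      ext y
      exact hs y
    have hPt := S.P_fix_mono hst hPs
    have h1 : S.P (S.sg u x₀ hu (S.trace u x₀ hu (Set.countable_singleton s))) f = f := by
      ext y
      rw [P_apply, ← ht]
      exact congrArg (fun F : C(K, ℝ) => F y) hPt
    have h2 := S.P_fix_mono (S.sg_mono u x₀ hu hA) h1
    have h3 : f (S.r (S.sg u x₀ hu A) x) = f x := congrArg (fun F : C(K, ℝ) => F x) h2
    have h4 : f x = 0 := hf0 rfl
    by_contra hcon
    have h5 : f (S.r (S.sg u x₀ hu A) x) = 1 := hf1 hcon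
    rw [h3, h4] at h5
    exact zero_ne_one h5

end canon

/-- **Canonical skeleton.** Every retractional skeleton `S` has a retractional skeleton `R` consisting of
retractions of `S`, such that the order of the index set of `R` is the order of the retractions, `R` is
obtained from `S` by a monotone map `σ` of the index sets, the retractions of `R` are cofinal in `S`, and
`R` induces the same set. -/
theorem exists_canonical (S : RetractionalSkeleton K Γ) :
    ∃ (Λ : Type v) (_ : PartialOrder Λ) (R : RetractionalSkeleton K Λ) (σ : Λ → Γ),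
      Monotone σ ∧ (∀ i, R.r i = S.r (σ i)) ∧
      (∀ i j, (∀ x, R.r i (R.r j x) = R.r i x) → i ≤ j) ∧
      (∀ s, ∃ t, s ≤ t ∧ ∃ i, S.r t = R.r i) ∧ R.inducedSet = S.inducedSet := by
  obtain ⟨x₀⟩ := S.nonempty
  choose u hu1 hu2 using S.directed
  have hu : ∀ x y, x ≤ u x y ∧ y ≤ u x y := fun x y => ⟨hu1 x y, hu2 x y⟩
  refine ⟨S.Cfam u x₀, inferInstance, S.canon u x₀ hu, S.sg u x₀ hu, ?_, fun i => rfl, ?_, ?_, ?_⟩
  · intro A B h
    exact S.sg_mono u x₀ hu h
  · intro A B h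
    apply S.le_of_fix u x₀ hu
    intro f hf
    ext x
    have h1 : f (S.r (S.sg u x₀ hu A) (S.r (S.sg u x₀ hu B) x)) = f (S.r (S.sg u x₀ hu A) x) :=
      congrArg f (h x)
    have h2 : ∀ y, f (S.r (S.sg u x₀ hu A) y) = f y := fun y =>
      congrArg (fun F : C(K, ℝ) => F y) hf
    rw [h2, h2] at h1
    exact h1
  · intro s
    obtain ⟨t, hst, ht⟩ := S.exists_ge_mem_range u x₀ hu s
    exact ⟨t, hst, _, ht⟩
  · apply Set.Subset.antisymm
    · intro x hx
      obtain ⟨A, hA⟩ := Set.mem_iUnion.mp hx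
      exact Set.mem_iUnion.mpr ⟨_, hA⟩
    · intro x hx
      obtain ⟨s, hs⟩ := Set.mem_iUnion.mp hx
      obtain ⟨t, hst, ht⟩ := S.exists_ge_mem_range u x₀ hu s
      refine Set.mem_iUnion.mpr ⟨S.trace u x₀ hu (Set.countable_singleton s), ?_⟩
      have := S.range_mono hst hs
      rw [ht] at this
      exact this

end RetractionalSkeleton

end Pool.Agent.helper68
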